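import Pool.Agent.Q65.SI.Orb

/-!
# Project SI (helper20), job RPS: representatives of the orbits of places in a tower
-/

set_option autoImplicit false
set_option linter.unusedSectionVars false

namespace Pool.Agent.Q65.SI

open NumberField IsDedekindDomain Pool.Agent.Q20.SI Pool.Agent.Q20.RS

theorem inPl_pact {F M : Type} [Field F] [NumberField F] [Field M] [NumberField M] [Algebra F M]
    {T : Finset (HeightOneSpectrum (𝓞 M))} (hT : Stable F T) (g : M ≃ₐ[F] M) {v : Pl M}
    (h : InPl T v) : InPl T (pact g v) := by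
  rcases v with P | v
  · exact hT g P h
  · exact trivial

theorem inPl_pact_iff {F M : Type} [Field F] [NumberField F] [Field M] [NumberField M] [Algebra F M]
    {T : Finset (HeightOneSpectrum (𝓞 M))} (hT : Stable F T) (g : M ≃ₐ[F] M) {v : Pl M} :
    InPl T (pact g v) ↔ InPl T v := by
  refine ⟨fun h => ?_, inPl_pact hT g⟩
  have h1 := inPl_pact hT g⁻¹ h
  rwa [← pact_mul, inv_mul_cancel, pact_one] at h1

/-- **JOB RPS** -/
theorem rps : S_ORB → S_RPS := by
  classical
  intro hORB F M N _ _ _ _ _ _ _ _ _ _ _ _ T T' hT hT' hTT χ ι _ w hw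
  obtain ⟨hsurj, hdn, horb, htriv⟩ := hORB F M N
  -- the primes which are not above `T`
  let A : Type := {P : HeightOneSpectrum (𝓞 N) //
    P ∈ T' ∧ Triv (up N χ) (.inl P) ∧ P.under (𝓞 M) ∉ T}
  have hAfin : Finite A := Set.Finite.to_subtype
    ((T'.finite_toSet).subset fun P hP => hP.1)
  let S : Setoid A :=
    { r := fun a b => ∃ g : N ≃ₐ[F] N, pact g (.inl a.1) = (.inl b.1 : Pl N)
      iseqv :=
        { refl := fun a => ⟨1, pact_one _⟩
          symm := by
            rintro a b ⟨g, hg⟩
            refine ⟨g⁻¹, ?_⟩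
            rw [← hg, ← pact_mul, inv_mul_cancel, pact_one]
          trans := by
            rintro a b c ⟨g, hg⟩ ⟨g', hg'⟩
            refine ⟨g' * g, ?_⟩
            rw [pact_mul, hg, hg'] } }
  have hQfin : Finite (Quotient S) := inferInstance
  choose lf hlf using hsurj
  let w' : ι ⊕ Quotient S → Pl N := Sum.elim (fun i => lf (w i)) (fun j => .inl (Quotient.out j).1)
  have hl : ∀ i, dn M (w' (.inl i)) = w i := fun i => hlf (w i)
  have hr : ∀ j, w' (.inr j) = .inl (Quotient.out j).1 := fun j => rfl
  -- a place above a place of `T`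
  have hup : ∀ v : Pl N, InPl T (dn M v) → InPl T' v := by
    intro v hv
    rcases v with P | v
    · exact hTT P hv
    · exact trivial
  have hnot : ∀ j : Quotient S, ¬ InPl T (dn M (w' (.inr j))) := fun j => (Quotient.out j).2.2.2
  refine ⟨Quotient S, Fintype.ofFinite _, Classical.decEq _, w', ⟨?_, ?_, ?_, ?_⟩, hl, ?_⟩
  · rintro (i | j)
    · refine hup _ ?_
      rw [hl]
      exact hw.mem i
    · exact (Quotient.out j).2.1
  · rintro (i | j)
    · rw [htriv, hl]
      exact hw.triv i
    · exact (Quotient.out j).2.2.1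
  · intro v hv hv'
    by_cases hd : InPl T (dn M v)
    · obtain ⟨i, y, hy⟩ := hw.cover (dn M v) hd ((htriv χ v).1 hv')
      obtain ⟨g, rfl⟩ := AlgEquiv.restrictNormalHom_surjective N (F := F) (K₁ := M) y
      obtain ⟨h, -, hh⟩ := horb (pact g (w' (.inl i))) v (by rw [hdn, hl, hy])
      exact ⟨.inl i, h * g, by rw [pact_mul, hh]⟩
    · rcases v with P | v
      · let a : A := ⟨P, hv, hv', hd⟩
        obtain ⟨g, hg⟩ : S.r (Quotient.out (Quotient.mk S a)) a := Quotient.exact (Quotient.out_eq _)
        exact ⟨.inr (Quotient.mk S a), g, hg⟩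
      · exact absurd trivial hd
  · rintro (i | i) (j | j) g hg
    · have h1 := congrArg (dn M) hg
      rw [hdn, hl, hl] at h1
      rw [hw.inj i j _ h1]
    · exfalso
      have h1 := congrArg (dn M) hg
      rw [hdn, hl] at h1
      apply hnot j
      rw [← h1]
      exact inPl_pact hT _ (hw.mem i)
    · exfalso
      have h1 := congrArg (dn M) hg
      rw [hdn, hl] at h1
      apply hnot i
      rw [← inPl_pact_iff hT (AlgEquiv.restrictNormalHom M g), h1]
      exact hw.mem j
    · refine congrArg Sum.inr ?_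
      rw [← Quotient.out_eq i, ← Quotient.out_eq j]
      exact Quotient.sound ⟨g, hg⟩
  · intro j
    exact ⟨(Quotient.out j).1, (Quotient.out j).2.1, rfl, (Quotient.out j).2.2.2⟩

end Pool.Agent.Q65.SI
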