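import Pool.Agent.Q20.SI.Stm
import Pool.Agent.TeamU.GalAct

/-!
# Project SI (helper20), job ORB: places in a tower of Galois extensions
-/

set_option autoImplicit false
set_option linter.unusedSectionVars false

namespace Pool.Agent.Q65.SI

open NumberField IsDedekindDomain Pool.Agent.Q20.SI Pool.Agent.Q20.RS

section
variable {F M : Type} [Field F] [NumberField F] [Field M] [NumberField M] [Algebra F M]

theorem mem_pra (g : M ≃ₐ[F] M) (P : HeightOneSpectrum (𝓞 M)) (x : 𝓞 M) :
    x ∈ (pra g P).asIdeal ↔ (RingOfIntegers.mapRingEquiv g.toRingEquiv).symm x ∈ P.asIdeal :=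
  Iff.rfl

end

section
variable {F M N : Type} [Field F] [NumberField F] [Field M] [NumberField M] [Field N] [NumberField N]
  [Algebra F M] [Algebra F N] [Algebra M N] [IsScalarTower F M N] [IsGalois F M] [IsGalois F N]

theorem rn_apply (g : N ≃ₐ[F] N) (x : M) :
    algebraMap M N (AlgEquiv.restrictNormalHom M g x) = g (algebraMap M N x) :=
  AlgEquiv.restrictNormal_commutes g M x

theorem rn_symm (g : N ≃ₐ[F] N) (x : M) :
    algebraMap M N ((AlgEquiv.restrictNormalHom M g).symm x) = g.symm (algebraMap M N x) := by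
  rw [AlgEquiv.eq_symm_apply, ← rn_apply, AlgEquiv.apply_symm_apply]

variable (F) in
theorem dn_surj (v : Pl M) : ∃ w : Pl N, dn M w = v := by
  have hint : Algebra.IsIntegral (𝓞 M) (𝓞 N) := inferInstance
  rcases v with v | v
  · have hvm : v.asIdeal.IsMaximal := v.isMaximal
    obtain ⟨P, hP, hPw⟩ := Ideal.exists_ideal_over_maximal_of_isIntegral (S := 𝓞 N) v.asIdeal (by
      rw [(RingHom.injective_iff_ker_eq_bot _).1 (FaithfulSMul.algebraMap_injective (𝓞 M) (𝓞 N))]
      exact bot_le)
    have hP0 : P ≠ ⊥ := by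
      rintro rfl
      apply v.ne_bot
      rw [← hPw, ← RingHom.ker_eq_comap_bot]
      exact (RingHom.injective_iff_ker_eq_bot _).1 (FaithfulSMul.algebraMap_injective (𝓞 M) (𝓞 N))
    refine ⟨.inl ⟨P, hP.isPrime, hP0⟩, ?_⟩
    exact congrArg Sum.inl (HeightOneSpectrum.ext hPw)
  · obtain ⟨w, hw⟩ := InfinitePlace.comap_surjective (k := M) (K := N) v
    exact ⟨.inr w, congrArg Sum.inr hw⟩

theorem dn_pact (g : N ≃ₐ[F] N) (w : Pl N) :
    dn M (pact g w) = pact (AlgEquiv.restrictNormalHom M g) (dn M w) := by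
  rcases w with P | v
  · refine congrArg Sum.inl ?_
    ext x
    rw [mem_pra]
    change algebraMap (𝓞 M) (𝓞 N) x ∈ (pra g P).asIdeal ↔
      algebraMap (𝓞 M) (𝓞 N) ((RingOfIntegers.mapRingEquiv
        (AlgEquiv.restrictNormalHom M g).toRingEquiv).symm x) ∈ P.asIdeal
    rw [mem_pra]
    have h : (RingOfIntegers.mapRingEquiv g.toRingEquiv).symm (algebraMap (𝓞 M) (𝓞 N) x) =
        algebraMap (𝓞 M) (𝓞 N) ((RingOfIntegers.mapRingEquiv
          (AlgEquiv.restrictNormalHom M g).toRingEquiv).symm x) := by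
      apply RingOfIntegers.ext
      exact (rn_symm g (x : M)).symm
    rw [h]
  · refine congrArg Sum.inr ?_
    change (g • v).comap (algebraMap M N) =
      (AlgEquiv.restrictNormalHom M g) • (v.comap (algebraMap M N))
    rw [InfinitePlace.smul_eq_comap, InfinitePlace.smul_eq_comap, ← InfinitePlace.comap_comp,
      ← InfinitePlace.comap_comp]
    congr 1
    ext x
    exact (rn_symm g x).symm

theorem rn_res (σ : N ≃ₐ[M] N) :
    AlgEquiv.restrictNormalHom M (σ.restrictScalars F : N ≃ₐ[F] N) = 1 := by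
  ext x
  apply (algebraMap M N).injective
  rw [rn_apply]
  exact σ.commutes x

theorem dn_orbit (w w' : Pl N) (h : dn M w = dn M w') :
    ∃ g : N ≃ₐ[F] N, AlgEquiv.restrictNormalHom M g = 1 ∧ pact g w = w' := by
  have hG : IsGalois M N := IsGalois.tower_top_of_isGalois F M N
  rcases w with P | v <;> rcases w' with P' | v'
  · have h1 : P.under (𝓞 M) = P'.under (𝓞 M) := Sum.inl_injective h
    obtain ⟨g, hg⟩ := Pool.Agent.TeamU.exists_act (k := M) (P := P) (Q := P')
      (v := P.under (𝓞 M)) rfl (congrArg HeightOneSpectrum.asIdeal h1.symm)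
    refine ⟨g.restrictScalars F, rn_res g, ?_⟩
    exact congrArg Sum.inl hg
  · cases h
  · cases h
  · have h1 : v.comap (algebraMap M N) = v'.comap (algebraMap M N) := Sum.inr_injective h
    obtain ⟨g, hg⟩ := InfinitePlace.exists_smul_eq_of_comap_eq h1
    refine ⟨g.restrictScalars F, rn_res g, ?_⟩
    exact congrArg Sum.inr hg

theorem triv_up (χ : (M ≃ₐ[F] M) →* ℂˣ) (w : Pl N) : Triv (up N χ) w ↔ Triv χ (dn M w) := by
  constructor
  · intro h y hy
    obtain ⟨g, rfl⟩ := AlgEquiv.restrictNormalHom_surjective N (F := F) (K₁ := M) y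
    rw [← dn_pact] at hy
    obtain ⟨k, hk, hk'⟩ := dn_orbit (F := F) (pact g w) w hy
    have h1 := h (k * g) (by rw [pact_mul, hk'])
    change χ (AlgEquiv.restrictNormalHom M (k * g)) = 1 at h1
    rwa [map_mul, hk, one_mul] at h1
  · intro h g hg
    change χ (AlgEquiv.restrictNormalHom M g) = 1
    refine h _ ?_
    rw [← dn_pact, hg]

end

/-- **JOB ORB** -/
theorem orb : S_ORB := by
  intro F M N _ _ _ _ _ _ _ _ _ _ _ _
  exact ⟨dn_surj, dn_pact, dn_orbit, triv_up⟩

end Pool.Agent.Q65.SI
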